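import Pool.Agent.Helper83.SU.St

set_option autoImplicit false

namespace Pool.Agent.Helper97.SU

open Pool.Agent.Helper83.SU Pool.Agent.Helper83.CK Cardinal Set

universe u

theorem lim_univ {α : Type u} [LinearOrder α] {γ : α} {X : Set α} (h : Lim γ X) :
    Lim γ univ :=
  ⟨h.1, fun ξ hξ => by
    obtain ⟨c, -, h1, h2⟩ := h.2 ξ hξ
    exact ⟨c, mem_univ _, h1, h2⟩⟩

theorem mCB : StOT.{u} → StCB.{u} := by
  intro hOT α _ _ k A C δ b o h1 h2 h3 h4 h5 h6 h7 h8 h9 h10 h11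
  obtain ⟨o1, o2, o3, o4, -⟩ := hOT α
  set E : Set α := {γ | γ < δ ∧ Lim γ (C δ) ∧ Lim γ A} with hE
  have hCE : ∀ γ ∈ E, C γ = C δ ∩ Iio γ := fun γ hγ => (h5 δ h11).2 γ hγ.1 hγ.2.1
  have step1 : ∀ γ ∈ E, ∃ β ∈ A, C γ = C β ∩ Iio γ := by
    intro γ hγ
    obtain ⟨a0, ha0, ha0'⟩ := h4 γ hγ.1
    have hne : {a | a ∈ A ∧ γ ≤ a}.Nonempty := ⟨a0, ha0, ha0'.le⟩
    set β := (wellFounded_lt (α := α)).min _ hne with hβ
    have hβm : β ∈ A ∧ γ ≤ β := (wellFounded_lt (α := α)).min_mem _ hne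
    have hmin : ∀ a ∈ A, γ ≤ a → β ≤ a := fun a ha haγ =>
      not_lt.1 ((wellFounded_lt (α := α)).not_lt_min _ (show a ∈ {a | a ∈ A ∧ γ ≤ a} from ⟨ha, haγ⟩))
    refine ⟨β, hβm.1, ?_⟩
    rcases hβm.2.eq_or_lt with heq | hlt
    · rw [← heq]
      exact (inter_eq_left.2 (h5 γ (lim_univ hγ.2.1)).1).symm
    · have hlim : Lim β univ := by
        by_contra hcon
        obtain ⟨p, hp, hp1, hp2⟩ := h7 β hβm.1 hcon γ hlt
        exact absurd (hmin p hp hp1) (not_le.2 hp2)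
      refine (h5 β hlim).2 γ hlt ⟨hγ.2.1.1, fun ξ hξ => ?_⟩
      obtain ⟨a, ha, ha1, ha2⟩ := hγ.2.2.2 ξ hξ
      obtain ⟨c, hc, hcA, hac⟩ := h6 β hβm.1 hlim a ha (ha2.trans hlt)
      refine ⟨c, hc, ha1.trans hac, ?_⟩
      by_contra hcon
      exact absurd (hmin c hcA (not_lt.1 hcon)) (not_le.2 ((h5 β hlim).1 hc))
  have step2 : ∀ γ ∈ E, ∀ η < ot (C γ), ∃ t ∈ A, t < b ∧ η < ot (Iio t) ∧ ot (Iio t) ≤ ot (C γ) := by
    intro γ hγ η hη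
    obtain ⟨c, hc, rfl⟩ := o3 (C γ) η hη
    obtain ⟨β, hβ, hCβ⟩ := step1 γ hγ
    have hcγ : c < γ := (h5 γ (lim_univ hγ.2.1)).1 hc
    obtain ⟨a, ha, ha1, ha2⟩ := hγ.2.2.2 c hcγ
    obtain ⟨ht, hot⟩ := h8 β hβ a ha
    have e : C γ ∩ Iio a = C β ∩ Iio a := by
      rw [hCβ, inter_assoc]
      congr 1
      exact inter_eq_right.2 (Iio_subset_Iio ha2.le)
    have i1 : ot (C γ ∩ Iio c) < ot (Iio (o β a)) := by
      rw [hot, ← e]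
      exact o2 (C γ) c c a hc le_rfl ha1
    have i2 : ot (Iio (o β a)) ≤ ot (C γ) := by
      rw [hot, ← e]
      exact o1 _ _ inter_subset_left
    refine ⟨o β a, ht, ?_, i1, i2⟩
    rw [← o4]
    refine (i2.trans (o1 _ _ ?_)).trans_lt h9.2
    rw [hCE γ hγ]
    exact inter_subset_left
  have step3 : ∀ γ ∈ E, ∀ γ' ∈ E, γ < γ' → ot (C γ) < ot (C γ') := by
    intro γ hγ γ' hγ' hlt
    obtain ⟨c, hc, hc1, hc2⟩ := hγ'.2.1.2 γ hlt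
    rw [hCE γ hγ, hCE γ' hγ']
    exact o2 (C δ) γ c γ' hc hc1.le hc2
  have hex : ∀ γ ∈ E, {t | t ∈ A ∧ t < b ∧ ot (C γ) < ot (Iio t)}.Nonempty := by
    intro γ hγ
    obtain ⟨γ', hγ', hlt, hl1, hl2⟩ := h10 γ hγ.1
    have hmem : γ' ∈ E := ⟨hγ', hl1, hl2⟩
    obtain ⟨t, ht, ht1, ht2, -⟩ := step2 γ' hmem _ (step3 γ hγ γ' hmem hlt)
    exact ⟨t, ht, ht1, ht2⟩
  let ψ : E → (A ∩ Iio b : Set α) := fun γ =>
    ⟨(wellFounded_lt (α := α)).min _ (hex γ.1 γ.2), by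
      have := (wellFounded_lt (α := α)).min_mem _ (hex γ.1 γ.2)
      exact ⟨this.1, this.2.1⟩⟩
  have hψ : ∀ γ γ' : E, γ.1 < γ'.1 → (ψ γ).1 < (ψ γ').1 := by
    intro γ γ' hlt
    obtain ⟨t, ht, ht1, ht2, ht3⟩ := step2 γ'.1 γ'.2 _ (step3 γ.1 γ.2 γ'.1 γ'.2 hlt)
    have i1 : (ψ γ).1 ≤ t :=
      not_lt.1 ((wellFounded_lt (α := α)).not_lt_min _
        (show t ∈ {t | t ∈ A ∧ t < b ∧ ot (C γ.1) < ot (Iio t)} from ⟨ht, ht1, ht2⟩))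
    have i2 : ot (C γ'.1) < ot (Iio (ψ γ').1) :=
      ((wellFounded_lt (α := α)).min_mem _ (hex γ'.1 γ'.2)).2.2
    exact i1.trans_lt ((o4 _ _).1 (ht3.trans_lt i2))
  have hinj : Function.Injective ψ := by
    intro γ γ' heq
    rcases lt_trichotomy γ.1 γ'.1 with hlt | h | hgt
    · exact absurd (congrArg Subtype.val heq) (hψ _ _ hlt).ne
    · exact Subtype.ext h
    · exact absurd (congrArg Subtype.val heq).symm (hψ _ _ hgt).ne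
  have hcard : #E < k := (mk_le_of_injective hinj).trans_lt (h2 b h9.1)
  choose! f hfA hf using fun γ (hγ : γ ∈ E) => h4 γ hγ.1
  obtain ⟨a, ha, hub⟩ := h1 (f '' E) (by rintro _ ⟨γ, hγ, rfl⟩; exact hfA γ hγ)
    (mk_image_le.trans_lt hcard)
  obtain ⟨γ, hγ, hlt, hl1, hl2⟩ := h10 a (h3 a ha)
  have hmem : γ ∈ E := ⟨hγ, hl1, hl2⟩
  exact lt_irrefl γ ((hf γ hmem).trans ((hub _ (mem_image_of_mem f hmem)).trans hlt))

end Pool.Agent.Helper97.SU
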